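import Mathlib

set_option autoImplicit false

namespace Pool.Agent.Results.MP_26893d_co.Linear

open Finset

theorem half (z : ℕ) : (1 / 2 : ℝ) ≤ |(z : ℝ) - 1 / 2| := by
  rcases Nat.eq_zero_or_pos z with rfl | h
  · norm_num [abs_of_neg]
  · have : (1 : ℝ) ≤ z := by exact_mod_cast h
    rw [abs_of_nonneg (by linarith)]; linarith

theorem main (k s : ℕ) (hs : 0 < s) (hk : k ≤ s + s) :
    ∃ h : Fin (s + s) → Fin (s + s) → Fin k → ℝ,
      (∀ i j, ∑ t, |h i j t| ≤ 1) ∧
      ∀ σ : Equiv.Perm (Fin (s + s)),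
        (k : ℝ) / 2 ≤ ∑ t, |∑ i, h i (σ i) t - (1 / ((s + s : ℕ) : ℝ)) * ∑ i, ∑ j, h i j t| := by
  refine ⟨fun i j t => if i.val = t.val ∧ j.val < s then 1 else 0, ?_, ?_⟩
  · intro i j
    have : ∀ t : Fin k, |(if i.val = t.val ∧ j.val < s then (1 : ℝ) else 0)| =
        if i.val = t.val ∧ j.val < s then 1 else 0 := by
      intro t; split_ifs <;> simp
    simp only [this]
    rw [sum_boole]
    have : (univ.filter (fun t : Fin k => i.val = t.val ∧ j.val < s)).card ≤ 1 := by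
      rw [card_le_one]
      intro a ha b hb
      simp only [mem_filter] at ha hb
      exact Fin.ext (by omega)
    exact_mod_cast this
  · intro σ
    have tot : ∀ t : Fin k, (∑ i : Fin (s + s), ∑ j : Fin (s + s),
        if i.val = t.val ∧ j.val < s then (1 : ℝ) else 0) = s := by
      intro t
      rw [sum_eq_single (⟨t.val, by have := t.2; omega⟩ : Fin (s + s))]
      · simp only [true_and]
        rw [Fin.sum_univ_add]
        simp
      · intro b _ hb
        refine sum_eq_zero fun j _ => if_neg fun h => hb (Fin.ext h.1)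
      · simp
    have hs' : (0 : ℝ) < s := by exact_mod_cast hs
    calc (k : ℝ) / 2 = ∑ _t : Fin k, (1 / 2 : ℝ) := by simp; ring
      _ ≤ _ := by
        refine sum_le_sum fun t _ => ?_
        rw [tot t, sum_boole]
        have : (1 / ((s + s : ℕ) : ℝ)) * s = 1 / 2 := by
          push_cast; field_simp; ring
        rw [this]
        exact half _

/-- Edges of `K_{n,n}` are pairs `(i,j)`, perfect matchings are permutations `σ`. -/
theorem result (C : ℝ) : ∃ k : ℕ, 1 ≤ k ∧ ∀ n : ℕ, Even n → k ≤ n →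
    ∃ h : Fin n → Fin n → Fin k → ℝ,
      (∀ i j, ∑ t, |h i j t| ≤ 1) ∧
      ∀ σ : Equiv.Perm (Fin n),
        C * Real.sqrt k < ∑ t, |∑ i, h i (σ i) t - (1 / (n : ℝ)) * ∑ i, ∑ j, h i j t| := by
  obtain ⟨m, hm⟩ := exists_nat_gt (2 * C)
  refine ⟨(m + 1) ^ 2, Nat.one_le_pow _ _ (by omega), ?_⟩
  rintro n ⟨s, rfl⟩ hk
  have h1 : 1 ≤ (m + 1) ^ 2 := Nat.one_le_pow _ _ (by omega)
  obtain ⟨h, h2, h3⟩ := main ((m + 1) ^ 2) s (by omega) hk
  refine ⟨h, h2, fun σ => lt_of_lt_of_le ?_ (h3 σ)⟩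
  push_cast
  have hm0 : (0 : ℝ) ≤ m := Nat.cast_nonneg m
  rw [Real.sqrt_sq (by linarith)]
  nlinarith

end Pool.Agent.Results.MP_26893d_co.Linear
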